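import Pool.Agent.Q266.RP.Stm4

/-! Project RP (helper266), job CSUB: subgroups and quotients for groups in which the subgroups generated
by two conjugate elements are regular. -/

namespace Pool.Agent.Q25.RPC

open Pool.Agent.Q266.RP

/-- the subgroup in the definition of regularity -/
def ps (p : ℕ) {P : Type} [Group P] (a b : P) : Subgroup P :=
  Subgroup.closure {u : P | ∃ c ∈ ⁅Subgroup.closure ({a, b} : Set P),
      Subgroup.closure ({a, b} : Set P)⁆, u = c ^ p}

theorem map_ps (p : ℕ) {G G' : Type} [Group G] [Group G'] (f : G →* G') (a b : G) :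
    (ps p a b).map f = ps p (f a) (f b) := by
  unfold ps
  rw [MonoidHom.map_closure]
  have h1 : (Subgroup.closure ({a, b} : Set G)).map f = Subgroup.closure ({f a, f b} : Set G') := by
    rw [MonoidHom.map_closure, Set.image_pair]
  have h2 : ⁅Subgroup.closure ({f a, f b} : Set G'), Subgroup.closure ({f a, f b} : Set G')⁆ =
      (⁅Subgroup.closure ({a, b} : Set G), Subgroup.closure ({a, b} : Set G)⁆).map f := by
    rw [Subgroup.map_commutator, h1]
  rw [h2]
  congr 1
  ext u
  constructor
  · rintro ⟨_, ⟨c, hc, rfl⟩, rfl⟩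
    exact ⟨f c, Subgroup.mem_map_of_mem f hc, map_pow f c p⟩
  · rintro ⟨_, ⟨c, hc, rfl⟩, rfl⟩
    exact ⟨c ^ p, ⟨c, hc, rfl⟩, map_pow f c p⟩

theorem regular_of_injective (p : ℕ) {G G' : Type} [Group G] [Group G'] (f : G →* G')
    (hf : Function.Injective f) (hG : Regular p G') : Regular p G := by
  intro a b
  obtain ⟨s, hs, h⟩ := hG (f a) (f b)
  have h1 : s ∈ (ps p a b).map f := by
    rw [map_ps]
    exact hs
  obtain ⟨t, ht, rfl⟩ := h1
  refine ⟨t, ht, ?_⟩
  apply hf
  rw [map_mul, map_pow, map_pow, map_mul, map_pow, map_mul]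
  exact h

theorem regular_of_surjective (p : ℕ) {G G' : Type} [Group G] [Group G'] (f : G →* G')
    (hf : Function.Surjective f) (hG : Regular p G) : Regular p G' := by
  intro a b
  obtain ⟨a', rfl⟩ := hf a
  obtain ⟨b', rfl⟩ := hf b
  obtain ⟨s, hs, h⟩ := hG a' b'
  refine ⟨f s, ?_, ?_⟩
  · have h1 : f s ∈ (ps p a' b').map f := Subgroup.mem_map_of_mem _ hs
    rw [map_ps] at h1
    exact h1
  · rw [← map_pow, ← map_pow, ← map_mul, ← map_mul, ← map_pow, ← map_mul, h]

theorem map_cl {G G' : Type} [Group G] [Group G'] (f : G →* G') (a b : G) :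
    (Subgroup.closure ({a, b * a * b⁻¹} : Set G)).map f =
      Subgroup.closure ({f a, f b * f a * (f b)⁻¹} : Set G') := by
  rw [MonoidHom.map_closure, Set.image_pair, map_mul, map_mul, map_inv]

theorem csub0 : S_CSUB := by
  refine ⟨?_, ?_, ?_⟩
  · intro p G _ H hG a b
    have h := hG (a : G) (b : G)
    have h1 : ∀ x : Subgroup.closure ({a, b * a * b⁻¹} : Set H),
        (H.subtype.comp (Subgroup.closure ({a, b * a * b⁻¹} : Set H)).subtype) x ∈
          Subgroup.closure ({(a : G), (b : G) * a * (b : G)⁻¹} : Set G) := by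
      intro x
      have h2 := Subgroup.mem_map_of_mem H.subtype x.2
      rw [map_cl] at h2
      exact h2
    refine regular_of_injective p
      ((H.subtype.comp (Subgroup.closure ({a, b * a * b⁻¹} : Set H)).subtype).codRestrict _ h1) ?_ h
    intro x y hxy
    have h3 := congrArg Subtype.val hxy
    exact Subtype.ext (Subtype.ext h3)
  · intro p G _ N _ hG a b
    obtain ⟨a', rfl⟩ := QuotientGroup.mk'_surjective N a
    obtain ⟨b', rfl⟩ := QuotientGroup.mk'_surjective N b
    have h := hG a' b'
    have h1 : ∀ x : Subgroup.closure ({a', b' * a' * b'⁻¹} : Set G),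
        ((QuotientGroup.mk' N).comp (Subgroup.closure ({a', b' * a' * b'⁻¹} : Set G)).subtype) x ∈
          Subgroup.closure ({QuotientGroup.mk' N a', QuotientGroup.mk' N b' * QuotientGroup.mk' N a' *
            (QuotientGroup.mk' N b')⁻¹} : Set (G ⧸ N)) := by
      intro x
      have h2 := Subgroup.mem_map_of_mem (QuotientGroup.mk' N) x.2
      rw [map_cl] at h2
      exact h2
    refine regular_of_surjective p
      (((QuotientGroup.mk' N).comp
        (Subgroup.closure ({a', b' * a' * b'⁻¹} : Set G)).subtype).codRestrict _ h1) ?_ h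
    rintro ⟨y, hy⟩
    rw [← map_cl] at hy
    obtain ⟨x, hx, hxy⟩ := hy
    exact ⟨⟨x, hx⟩, Subtype.ext hxy⟩
  · intro p G _ hG a b
    exact regular_of_injective p (Subgroup.subtype _) (Subgroup.subtype_injective _) hG

/-- JOB CSUB. -/
theorem csub : S_SUB → S_CSUB := fun _ => csub0

end Pool.Agent.Q25.RPC
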